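import Pool.Agent.U398.MV.Stm6
import Pool.Agent.U667.MV4.FIN4

/-!
Package FIN6 of project MV6: all moments of the zero counts in windows seen from the zeros.
-/

set_option autoImplicit false

namespace Pool.Agent.U255.MV6

open MeasureTheory Filter Topology Set
open Pool.Agent.U398.MV Pool.Agent.U667.MV4
open scoped Nat

noncomputable section

variable {N : ℝ → ℕ} {g : ℕ → ℝ} {T w : ℝ}

lemma step1 (hm : Monotone N) (hw : 0 < w) (q : ℕ) (lam : ℝ) (hlam : 1 ≤ lam) {m : ℕ}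
    (c x : Fin m → ℝ) :
    |(∑ n ∈ Finset.Ioc (N T) (N (2 * T)), Gf N c x (g n) ^ (q + 1)) -
      PA N g T w (fun _ t => Gf N c x t ^ (q + 1))| ≤
    ((q + 1 : ℕ) * 2 ^ q : ℝ) *
      (2 * lam * PA N g T w (fun n t => (Gf N c x (g n) - Gf N c x t) ^ (2 * 1)) +
        PA N g T w (fun n t => (Gf N c x (g n) - Gf N c x t) ^ (2 * q)) +
        lam⁻¹ * PA N g T w (fun _ t => Gf N c x t ^ (2 * q))) := by
  obtain ⟨G, hG⟩ : ∃ G, G = Gf N c x := ⟨_, rfl⟩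
  obtain ⟨E, hE⟩ : ∃ E : ℕ → ℝ → ℝ, E = fun n t => G (g n) - G t := ⟨_, rfl⟩
  obtain ⟨Y, hY⟩ : ∃ Y : ℕ → ℝ, Y = fun n => G (g n) := ⟨_, rfl⟩
  have lG : LBd G := by rw [hG]; exact Gf_LBd hm c _
  have lE : ∀ n, LBd (E n) := fun n => by
    have h := (LBd.const (G (g n))).add lG.neg
    rw [hE]
    simpa only [sub_eq_add_neg] using h
  have hYE : ∀ n t, Y n = G t + E n t := by
    intro n t
    rw [hY, hE]
    simp only
    ring
  obtain ⟨Ck, hCk⟩ : ∃ Ck : ℝ, Ck = ((q + 1 : ℕ) * 2 ^ q : ℝ) := ⟨_, rfl⟩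
  have hCk0 : 0 ≤ Ck := by rw [hCk]; positivity
  obtain ⟨H, hH⟩ : ∃ H : ℕ → ℝ → ℝ, H = fun n t =>
    Ck * (2 * lam * E n t ^ (2 * 1) + E n t ^ (2 * q) + lam⁻¹ * G t ^ (2 * q)) := ⟨_, rfl⟩
  have lH : ∀ n, LBd (H n) := fun n => by
    rw [hH]
    exact (LBd.const Ck).mul ((((LBd.const (2 * lam)).mul ((lE n).pow _)).add
      ((lE n).pow _)).add ((LBd.const lam⁻¹).mul (lG.pow _)))
  have hHe : PA N g T w H = Ck * (2 * lam * PA N g T w (fun n t => E n t ^ (2 * 1)) +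
      PA N g T w (fun n t => E n t ^ (2 * q)) + lam⁻¹ * PA N g T w (fun _ t => G t ^ (2 * q))) := by
    rw [hH, PA_mul, PA_add (f := fun n t => 2 * lam * E n t ^ (2 * 1) + E n t ^ (2 * q))
      (h := fun _ t => lam⁻¹ * G t ^ (2 * q))
      (fun n => ((LBd.const (2 * lam)).mul ((lE n).pow _)).add ((lE n).pow _))
      (fun n => (LBd.const lam⁻¹).mul (lG.pow _)),
      PA_add (f := fun n t => 2 * lam * E n t ^ (2 * 1)) (h := fun n t => E n t ^ (2 * q))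
      (fun n => (LBd.const (2 * lam)).mul ((lE n).pow _)) (fun n => (lE n).pow _),
      PA_mul, PA_mul]
  have hpt : ∀ n t, |Y n ^ (q + 1) - G t ^ (q + 1)| ≤ H n t := by
    intro n t
    have h1 := pow_diff q (Y n) (G t) (E n t) lam (hYE n t) hlam
    rw [← hCk] at h1
    rw [hH]
    simpa using h1
  have lY : ∀ n, LBd fun _ : ℝ => Y n ^ (q + 1) := fun n => LBd.const _
  have lZ : ∀ _n : ℕ, LBd fun t => G t ^ (q + 1) := fun _ => lG.pow _
  have h1 : PA N g T w (fun n _ => Y n ^ (q + 1)) ≤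
      PA N g T w (fun n t => G t ^ (q + 1) + H n t) :=
    PA_le hw lY (fun n => (lZ n).add (lH n)) fun n t => by linarith [(abs_le.1 (hpt n t)).2]
  have h2 : PA N g T w (fun _ t => G t ^ (q + 1)) ≤
      PA N g T w (fun n t => Y n ^ (q + 1) + H n t) :=
    PA_le hw lZ (fun n => (lY n).add (lH n)) fun n t => by linarith [(abs_le.1 (hpt n t)).1]
  rw [PA_add (f := fun _ t => G t ^ (q + 1)) (h := H) lZ lH] at h1
  rw [PA_add (f := fun n _ => Y n ^ (q + 1)) (h := H) lY lH] at h2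
  rw [PA_const hw (fun n => Y n ^ (q + 1))] at h1 h2
  have h3 : |(∑ n ∈ Finset.Ioc (N T) (N (2 * T)), Y n ^ (q + 1)) -
      PA N g T w (fun _ t => G t ^ (q + 1))| ≤ PA N g T w H := by
    rw [abs_le]
    constructor <;> linarith
  rw [hHe] at h3
  rw [hY, hE, hG, hCk] at h3
  exact h3

set_option maxHeartbeats 2000000 in
theorem t_FIN6 : J_FIN6 := by
  intro hPU hZF hLW hCW N g C1 hC1 hc hM hMF k ε hk hε
  obtain ⟨q, rfl⟩ : ∃ q, k = q + 1 := ⟨k - 1, by omega⟩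
  obtain ⟨Ca, Ta, hCa, hTa, HA⟩ := hZF hPU N g C1 hC1 hc hM hMF 1
  obtain ⟨Cb, Tb, hCb, hTb, HB⟩ := hZF hPU N g C1 hC1 hc hM hMF q
  obtain ⟨Cp, Tp, hCp, hTp, HP⟩ := hPU N g C1 hc hM
  obtain ⟨Cm, Tm, hCm, hTm, HM⟩ := hMF.2.2.1 (2 * q)
  obtain ⟨Cv, Tv, hCv, hTv, HV⟩ := hMF.2.2.2
  obtain ⟨Cl, Tl, hCl, hTl, HL⟩ := hLW N g C1 hC1 hc hM hMF (q + 1)
  obtain ⟨Cw, Tw, hCw, hTw, HW⟩ := hCW hPU N g C1 hC1 hc hM hMF (q + 1)
  have hm := hc.mono
  have hpi := Real.pi_gt_three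
  have hpi4 := Real.pi_lt_four
  obtain ⟨Ck, hCk⟩ : ∃ Ck : ℝ, Ck = ((q + 1 : ℕ) * 2 ^ q : ℝ) := ⟨_, rfl⟩
  have hCk0 : 0 ≤ Ck := by rw [hCk]; positivity
  obtain ⟨Cg, hCg⟩ : ∃ Cg : ℝ, Cg = Cp * Real.sqrt Cm := ⟨_, rfl⟩
  have hCg0 : 0 ≤ Cg := by rw [hCg]; positivity
  obtain ⟨De, hDe⟩ : ∃ De : ℝ, De = 1 + 3 ^ ε / ε := ⟨_, rfl⟩
  have hDe1 : 1 ≤ De := by
    rw [hDe]
    have : 0 ≤ (3 : ℝ) ^ ε / ε := by positivity
    linarith
  obtain ⟨e2, he2⟩ : ∃ e2 : ℝ, e2 = (1 + 3 * C1) * (((q + 1 - 1)‼ : ℕ) : ℝ) * (1 + Cv) :=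
    ⟨_, rfl⟩
  have he20 : 0 ≤ e2 := by rw [he2]; positivity
  obtain ⟨LL, hLL⟩ : ∃ LL : ℝ, LL = Cv + 3 + 13 * 13 * (1 + 3 * C1) := ⟨_, rfl⟩
  refine ⟨Ck * (2 * (1 + 13 * Ca) + (1 + 13 * Cb) + 13 * Cg) + 13 * Cw * De +
      13 * Cl * (1 + De) + 13 * e2,
    max (max (max Ta Tb) (max Tp Tm)) (max (max Tl Tw) (max (Real.exp LL) Tv)), by positivity,
    le_max_of_le_left (le_max_of_le_left (le_max_of_le_left hTa)), ?_⟩
  intro T hT m c x hA
  have hTa' : Ta ≤ T := (le_max_left _ _).trans ((le_max_left _ _).trans ((le_max_left _ _).trans hT))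
  have hTb' : Tb ≤ T := (le_max_right _ _).trans ((le_max_left _ _).trans ((le_max_left _ _).trans hT))
  have hTp' : Tp ≤ T := (le_max_left _ _).trans ((le_max_right _ _).trans ((le_max_left _ _).trans hT))
  have hTm' : Tm ≤ T := (le_max_right _ _).trans ((le_max_right _ _).trans ((le_max_left _ _).trans hT))
  have hTl' : Tl ≤ T := (le_max_left _ _).trans ((le_max_left _ _).trans ((le_max_right _ _).trans hT))
  have hTw' : Tw ≤ T := (le_max_right _ _).trans ((le_max_left _ _).trans ((le_max_right _ _).trans hT))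
  have hTe' : Real.exp LL ≤ T :=
    (le_max_left _ _).trans ((le_max_right _ _).trans ((le_max_right _ _).trans hT))
  have hTv' : Tv ≤ T :=
    (le_max_right _ _).trans ((le_max_right _ _).trans ((le_max_right _ _).trans hT))
  have hT10 : 10 ≤ T := hTa.trans hTa'
  have hTp0 : 0 < T := by linarith
  have hLLT : LL ≤ Real.log T := (Real.le_log_iff_exp_le hTp0).2 hTe'
  obtain ⟨L, hL⟩ : ∃ L, L = Real.log T := ⟨_, rfl⟩
  have hLA : Cv + 3 ≤ L := by rw [hL]; linarith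
  have hL1 : 13 * 13 * (1 + 3 * C1) ≤ L := by rw [hL]; linarith
  have hL0 : 0 < L := by linarith
  obtain ⟨V, hV⟩ : ∃ V, V = Vh T c x := ⟨_, rfl⟩
  obtain ⟨Q, hQ⟩ : ∃ Q, Q = 1 + |V| := ⟨_, rfl⟩
  have hQ1 : 1 ≤ Q := by rw [hQ]; linarith [abs_nonneg V]
  have hQ0 : 0 < Q := by linarith
  have hQL : Q ≤ (1 + Cv) * L := by
    have h1 := HV T hTv' m c x hA
    rw [← hV, ← hL] at h1
    have h2 : Real.log L ≤ L := Real.log_le_self hL0.le
    have h3 := mul_le_mul_of_nonneg_left h2 hCv.le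
    rw [hQ]
    nlinarith
  obtain ⟨D, hD⟩ : ∃ D : ℝ, D = (N (2 * T) : ℝ) - N T := ⟨_, rfl⟩
  have hD0 : 0 ≤ D := by
    rw [hD]
    have : (N T : ℝ) ≤ N (2 * T) := Nat.cast_le.2 (hm (by linarith))
    linarith
  have hasym := cnt_asym hc hC1 T hT10
  rw [← hD, ← hL] at hasym
  have hTL0 : 0 ≤ T * L := by positivity
  have hTLD : T * L ≤ 13 * D := by
    have h1 := (abs_le.1 hasym).1
    have h2 : T * L / (2 * Real.pi) ≥ T * L / 8 := by
      refine div_le_div_of_nonneg_left hTL0 (by positivity) (by linarith)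
    have h3 : (1 + 3 * C1) * T ≤ T * L / 169 := by
      rw [le_div_iff₀ (by norm_num)]
      have := mul_le_mul_of_nonneg_left hL1 hTp0.le
      linarith
    linarith
  obtain ⟨w, hw⟩ : ∃ w, w = 2 * Real.pi / Real.log T := ⟨_, rfl⟩
  have hw0 : 0 < w := by rw [hw, ← hL]; positivity
  obtain ⟨lam, hlam⟩ : ∃ lam : ℝ, lam = Q ^ ((((q + 1 : ℕ) : ℝ) - 1) / 2) := ⟨_, rfl⟩
  have hlam1 : 1 ≤ lam := by
    rw [hlam]
    refine Real.one_le_rpow hQ1 ?_
    push_cast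
    rw [add_sub_cancel_right]
    positivity
  have hlam0 : 0 < lam := by linarith
  have hlamsq : lam ^ 2 = Q ^ q := by rw [hlam]; exact lam_sq q Q hQ1
  obtain ⟨Qe, hQe⟩ : ∃ Qe : ℝ, Qe = Q ^ ε := ⟨_, rfl⟩
  have hQe1 : 1 ≤ Qe := by rw [hQe]; exact Real.one_le_rpow hQ1 hε.le
  obtain ⟨K, hK⟩ : ∃ K : ℕ, K = ⌈Real.sqrt Q⌉₊ := ⟨_, rfl⟩
  have hsQ1 : 1 ≤ Real.sqrt Q := by rw [Real.one_le_sqrt]; exact hQ1
  have hK1 : Real.sqrt Q ≤ K := by rw [hK]; exact Nat.le_ceil _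
  have hK2 : (K : ℝ) ≤ Real.sqrt Q + 1 := by rw [hK]; exact (Nat.ceil_lt_add_one (by positivity)).le
  have hK1' : 1 ≤ K := by
    have : (1 : ℝ) ≤ K := hsQ1.trans hK1
    exact_mod_cast this
  have hKL : (K : ℝ) ≤ Real.log T := by
    rw [← hL]
    have : Real.sqrt Q ≤ L - 1 := by
      rw [Real.sqrt_le_left (by linarith)]
      have h1 : (1 + Cv) * L ≤ (L - 2) * L := mul_le_mul_of_nonneg_right (by linarith) hL0.le
      have h2 : (L - 1) ^ 2 = (L - 2) * L + 1 := by ring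
      rw [h2]
      linarith
    linarith
  have hlK : 1 + Real.log (1 + K) ≤ De * Qe := by
    rw [hDe, hQe]; exact logK ε Q hε hQ1 K hK2
  have hlK0 : 0 ≤ Real.log (1 + (K : ℝ)) := Real.log_nonneg (by
    have : (0 : ℝ) ≤ K := Nat.cast_nonneg _
    linarith)
  have hDQ : 1 ≤ De * Qe := one_le_mul_of_one_le_of_one_le hDe1 hQe1
  obtain ⟨G, hG⟩ : ∃ G, G = Gf N c x := ⟨_, rfl⟩
  have lG : LBd G := by rw [hG]; exact Gf_LBd hm c _
  -- step 1
  have s1 := step1 (N := N) (g := g) (T := T) (w := w) hm hw0 q lam hlam1 c x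
  have s2 := HA T hTa' m c x hA
  have s3 := HB T hTb' m c x hA
  rw [← hw, ← hL] at s2 s3
  have s4 := HP T hTp' (fun t => G t ^ (2 * q))
    (fun t => (even_two_mul q).pow_nonneg _) (lG.pow _).meas.aestronglyMeasurable
    (((lG.pow _).pow 2).on _ _)
  have s5 : (∫ t in (3 * T / 4)..(3 * T), (G t ^ (2 * q)) ^ 2) ≤ Cm * T * Q ^ (2 * q) := by
    have h1 := HM T hTm' m c x hA
    rw [← hG, ← hV, ← hQ] at h1
    have e : ∀ t, (G t ^ (2 * q)) ^ 2 = G t ^ (2 * (2 * q)) := fun t => by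
      rw [← pow_mul, mul_comm (2 * q) 2]
    simp only [e]
    exact h1
  rw [← hG] at s1 s2 s3
  rw [← hw, ← hL] at s4
  have s6 : PA N g T w (fun _ t => G t ^ (2 * q)) ≤ Cg * (T * L) * lam ^ 2 := by
    refine s4.trans ?_
    have h1 : Real.sqrt (∫ t in (3 * T / 4)..(3 * T), (G t ^ (2 * q)) ^ 2) ≤
        Real.sqrt Cm * Real.sqrt T * Q ^ q := by
      refine (Real.sqrt_le_sqrt s5).trans (le_of_eq ?_)
      rw [Real.sqrt_mul (by positivity), Real.sqrt_mul (by positivity), mul_comm 2 q, pow_mul,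
        Real.sqrt_sq (by positivity)]
    calc Cp * L * Real.sqrt T * Real.sqrt (∫ t in (3 * T / 4)..(3 * T), (G t ^ (2 * q)) ^ 2)
        ≤ Cp * L * Real.sqrt T * (Real.sqrt Cm * Real.sqrt T * Q ^ q) :=
          mul_le_mul_of_nonneg_left h1 (by positivity)
      _ = Cp * Real.sqrt Cm * Q ^ q * L * (Real.sqrt T * Real.sqrt T) := by ring
      _ = Cg * (T * L) * lam ^ 2 := by
          rw [Real.mul_self_sqrt hTp0.le, hlamsq, hCg]
          ring
  have hPA1 : |(∑ n ∈ Finset.Ioc (N T) (N (2 * T)), G (g n) ^ (q + 1)) -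
      PA N g T w (fun _ t => G t ^ (q + 1))| ≤
      Ck * (2 * lam * (D + Ca * (T * L) * Qe) + (D + Cb * (T * L) * Qe) + Cg * (T * L) * lam) := by
    refine s1.trans ?_
    rw [← hCk]
    refine mul_le_mul_of_nonneg_left ?_ hCk0
    have b1 : lam⁻¹ * PA N g T w (fun _ t => G t ^ (2 * q)) ≤ Cg * (T * L) * lam := by
      calc lam⁻¹ * PA N g T w (fun _ t => G t ^ (2 * q)) ≤ lam⁻¹ * (Cg * (T * L) * lam ^ 2) :=
            mul_le_mul_of_nonneg_left s6 (by positivity)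
        _ = Cg * (T * L) * lam := by field_simp
    have a1 : Ca * (T * L) ≤ Ca * (T * L) * Qe :=
      le_mul_of_one_le_right (mul_nonneg hCa.le hTL0) hQe1
    have a2 : Cb * (T * L) ≤ Cb * (T * L) * Qe :=
      le_mul_of_one_le_right (mul_nonneg hCb.le hTL0) hQe1
    have b2 := mul_le_mul_of_nonneg_left (s2.trans (a1.trans (le_add_of_nonneg_left hD0)))
      (by positivity : 0 ≤ 2 * lam)
    have b3 := s3.trans (a2.trans (le_add_of_nonneg_left hD0))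
    linarith
  -- windows
  have v1 := HW T hTw' K hK1' hKL m c x hA
  have v2 := HL T hTl' K hK1' hKL m c x hA
  rw [← hG, ← hw, ← hL, ← hV, ← hQ, ← hlam] at v1
  rw [← hG, ← hL, ← hV, ← hQ, ← hlam, lam_half q Q hQ1, ← hlam] at v2
  obtain ⟨P2, hP2⟩ : ∃ P2, P2 = PA N g T (2 * Real.pi * K / L) (fun _ t => G t ^ (q + 1)) :=
    ⟨_, rfl⟩
  rw [← hP2] at v1 v2
  have v3 : |P2 - PA N g T w (fun _ t => G t ^ (q + 1))| ≤ Cw * (T * L) * lam * (De * Qe) := by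
    refine v1.trans (mul_le_mul_of_nonneg_left ?_ (by positivity))
    calc (1 + Real.log (1 + (K : ℝ))) ^ (1 / 2 : ℝ) ≤ (1 + Real.log (1 + (K : ℝ))) ^ (1 : ℝ) :=
          Real.rpow_le_rpow_of_exponent_le (by linarith) (by norm_num)
      _ = 1 + Real.log (1 + (K : ℝ)) := Real.rpow_one _
      _ ≤ De * Qe := hlK
  have v4 : |P2 - T * L / (2 * Real.pi) * gM (q + 1) V| ≤
      Cl * (T * L) * (lam + lam * (De * Qe)) := by
    refine v2.trans (mul_le_mul_of_nonneg_left (add_le_add le_rfl ?_) (by positivity))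
    have hKp : (0 : ℝ) < K := by exact_mod_cast hK1'
    rw [div_le_iff₀ hKp]
    calc lam * Real.sqrt Q * (1 + Real.log (1 + (K : ℝ))) ≤ lam * K * (De * Qe) := by
          refine mul_le_mul (mul_le_mul_of_nonneg_left hK1 hlam0.le) hlK (by linarith)
            (by positivity)
      _ = lam * (De * Qe) * K := by ring
  have w5 : |T * L / (2 * Real.pi) * gM (q + 1) V - D * gM (q + 1) V| ≤
      e2 * (T * L) * lam := by
    rw [← sub_mul, abs_mul, abs_sub_comm]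
    have h1 := gM_le (q + 1) V Q hQ1 (by rw [hQ]; linarith)
    rw [lam_half q Q hQ1, ← hlam] at h1
    have h2 : Real.sqrt Q ≤ (1 + Cv) * L :=
      (Real.sqrt_le_iff.2 ⟨by linarith, by nlinarith⟩ : Real.sqrt Q ≤ Q).trans hQL
    calc |D - T * L / (2 * Real.pi)| * |gM (q + 1) V|
        ≤ ((1 + 3 * C1) * T) * ((((q + 1 - 1)‼ : ℕ) : ℝ) * (lam * Real.sqrt Q)) :=
          mul_le_mul hasym h1 (abs_nonneg _) (by positivity)
      _ ≤ ((1 + 3 * C1) * T) * ((((q + 1 - 1)‼ : ℕ) : ℝ) * (lam * ((1 + Cv) * L))) := by gcongr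
      _ = e2 * (T * L) * lam := by rw [he2]; ring
  have hfin := arith hPA1 v3 v4 w5 hTLD hD0 hTL0 hlam1 hQe1 hCk0 hCa.le hCb.le hCg0 hCw.le hCl.le
    hDe1 he20
  rw [← hD, ← hG, ← hV, ← hQ, Real.rpow_add hQ0, ← hlam, ← hQe]
  exact hfin

end

end Pool.Agent.U255.MV6
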